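import Mathlib
import Pool.Agent.X218.NF.Cover

/-!
# MP_9624c8_gt, Q1 (negated form)

`∏_{n ≥ 2} C_n^*` is not covered by countably many Borel null-finite subsets of `∏_{n ≥ 2} C_n`.
-/

open Set Filter Topology

namespace Pool.Agent.Results.MP_9624c8_gt.NotCountableUnion

/-- The group `X = ∏_{n ≥ 2} C_n`, where `C_n` is the group of `n`-th roots of unity in `ℂ`
(the factor of index `n : ℕ` being `C_{n+2}`), with coordinatewise multiplication and the product
topology. -/
abbrev X : Type := ∀ n : ℕ, rootsOfUnity (n + 2) ℂ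

/-- The closed set `A = ∏_{n ≥ 2} C_n^*`, with `C_n^* = C_n \ {1}`. -/
def A : Set X := {x | ∀ n, x n ≠ 1}

/-- A subset `B` of `X` is null-finite if for some sequence `x_k → 1` every `x` has only finitely
many `k` with `x * x_k ∈ B`. -/
def NullFinite (B : Set X) : Prop :=
  ∃ a : ℕ → X, Tendsto a atTop (𝓝 1) ∧ ∀ x : X, {k : ℕ | x * a k ∈ B}.Finite

/-- The factors are discrete. -/
theorem discrete (n : ℕ) : DiscreteTopology (rootsOfUnity (n + 2) ℂ) := inferInstance

/-- **MP_9624c8_gt, Q1 (negated form).** The set `A` is not contained in (in particular, not equal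
to) a union of countably many Borel null-finite subsets of `X`. -/
theorem result (B : ℕ → Set X) (hB : ∀ k, @MeasurableSet X (borel X) (B k))
    (hnf : ∀ k, NullFinite (B k)) : ¬ A ⊆ ⋃ k, B k := by
  intro hcov
  have hcard : ∀ n, Nat.card (rootsOfUnity (n + 2) ℂ) = n + 2 := fun n =>
    Complex.card_rootsOfUnity (n + 2)
  obtain ⟨k, hk⟩ := Pool.Agent.X218.NF.no_cover (G := fun n => rootsOfUnity (n + 2) ℂ)
    (fun K => ⟨K, fun n hn => by rw [hcard]; omega⟩) (fun n => by rw [hcard]; omega)
    (fun n => 1) B hB hcov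
  obtain ⟨a, ha, hfin⟩ := hnf k
  obtain ⟨x, hx⟩ := hk (fun j n => Equiv.mulRight (a j n)) (by
    intro n
    have h1 := (tendsto_pi_nhds.1 ha) n
    have h2 : (1 : X) n = 1 := rfl
    rw [h2, nhds_discrete, tendsto_pure] at h1
    filter_upwards [h1] with j hj
    ext z
    simp [hj])
  exact hx (hfin x)

end Pool.Agent.Results.MP_9624c8_gt.NotCountableUnion
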